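import Pool.Agent.N483.KM.StmV
import Pool.Agent.N456.KM.PRX

/-!
# Concentration for block sums, functions with values in `[0, ∞]` (helper712, project KM)
-/

set_option autoImplicit false

namespace Pool.Agent.N712.KM

open MeasureTheory Set Filter Topology
open scoped ENNReal InnerProductSpace
open Pool.Agent.R754.KG (E un sl Rv)
open Pool.Agent.Y506.PV (CcW ind LCn)
open Pool.Agent.Y506.RG (EW VW Adm)
open Pool.Agent.R751.MB (AP)
open Pool.Agent.N456.KM.PRXx (lim_cc)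
open Pool.Agent.N483.KM

section algebra
variable {r B n : ℕ} {k : Fin B → ℕ}

theorem vr_closed (L : E n →ₗ[ℝ] (∀ i, E (k i))) {V : Fin r → ∀ i, E (k i) → ℝ}
    (s : Fin r → ℝ) (hV : ∀ j i, ConvexOn ℝ univ (V j i)) : IsClosed (VR L V s) := by
  have e : VR L V s = ⋂ j, {x : E n | ∑ i, V j i (L x i) ≤ s j} := by
    ext x
    simp [VR]
  rw [e]
  refine isClosed_iInter fun j => isClosed_le ?_ continuous_const
  refine continuous_finsetSum _ fun i _ => ?_
  have h1 : Continuous (V j i) := by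
    rw [← continuousOn_univ]
    exact (hV j i).continuousOn isOpen_univ
  have h2 : Continuous fun x : E n => L x i :=
    (continuous_apply i).comp L.continuous_of_finiteDimensional
  exact h1.comp h2

theorem vr_convex (L : E n →ₗ[ℝ] (∀ i, E (k i))) {V : Fin r → ∀ i, E (k i) → ℝ}
    (s : Fin r → ℝ) (hV : ∀ j i, ConvexOn ℝ univ (V j i)) : Convex ℝ (VR L V s) := by
  intro x hx y hy a b ha hb hab j
  have h1 := hx j
  have h2 := hy j
  have h3 : ∑ i, V j i (L (a • x + b • y) i) ≤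
      ∑ i, (a * V j i (L x i) + b * V j i (L y i)) := by
    refine Finset.sum_le_sum fun i _ => ?_
    have := (hV j i).2 (mem_univ (L x i)) (mem_univ (L y i)) ha hb hab
    have e : L (a • x + b • y) i = a • L x i + b • L y i := by
      rw [map_add, map_smul, map_smul]
      rfl
    rw [e]
    simpa using this
  rw [Finset.sum_add_distrib, ← Finset.mul_sum, ← Finset.mul_sum] at h3
  have h4 : a * ∑ i, V j i (L x i) ≤ a * s j := mul_le_mul_of_nonneg_left h1 ha
  have h5 : b * ∑ i, V j i (L y i) ≤ b * s j := mul_le_mul_of_nonneg_left h2 hb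
  have h6 : a * s j + b * s j = s j := by rw [← add_mul, hab, one_mul]
  linarith

/-- a bounded nonempty set of this kind: the map is injective -/
theorem inj {L : E n →ₗ[ℝ] (∀ i, E (k i))} {V : Fin r → ∀ i, E (k i) → ℝ≥0∞}
    {e : Fin r → ℝ≥0∞} (hb : Bornology.IsBounded (VX L V e)) {p : E n} (hp : p ∈ VX L V e) :
    Function.Injective L := by
  rw [← LinearMap.ker_eq_bot, LinearMap.ker_eq_bot']
  intro x hx
  by_contra hx0
  have hmem : ∀ t : ℝ, p + t • x ∈ VX L V e := by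
    intro t j
    have := hp j
    have h2 : L (p + t • x) = L p := by
      rw [map_add, map_smul, hx, smul_zero, add_zero]
    rw [h2]
    exact this
  obtain ⟨R, hR⟩ := hb.exists_norm_le
  have hxn : 0 < ‖x‖ := norm_pos_iff.2 hx0
  have h1 := hR _ (hmem ((R + ‖p‖ + 1) / ‖x‖))
  have h2 : ‖((R + ‖p‖ + 1) / ‖x‖) • x‖ ≤ ‖p + ((R + ‖p‖ + 1) / ‖x‖) • x‖ + ‖p‖ := by
    have := norm_sub_le (p + ((R + ‖p‖ + 1) / ‖x‖) • x) p
    simpa using this
  have hR0 : 0 ≤ R := (norm_nonneg _).trans (hR _ hp)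
  rw [norm_smul, Real.norm_of_nonneg (by positivity), div_mul_cancel₀ _ hxn.ne'] at h2
  linarith

/-- extension to a linear equivalence -/
theorem extend {N : ℕ} {A : E n →ₗ[ℝ] E N} (hinj : Function.Injective A) :
    n ≤ N ∧ ∃ ψ : (E n × E (N - n)) ≃ₗ[ℝ] E N, ∀ x, ψ (x, 0) = A x := by
  have hle : n ≤ N := by
    have := LinearMap.finrank_le_finrank_of_injective hinj
    simpa using this
  refine ⟨hle, ?_⟩
  obtain ⟨C, hC⟩ := Submodule.exists_isCompl (LinearMap.range A)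
  have hfr : Module.finrank ℝ (LinearMap.range A) = n := by
    rw [LinearMap.finrank_range_of_inj hinj]
    simp
  have hfC : Module.finrank ℝ (E (N - n)) = Module.finrank ℝ C := by
    have h1 := Submodule.finrank_add_eq_of_isCompl hC
    rw [hfr] at h1
    have h2 : Module.finrank ℝ (E N) = N := by simp
    rw [h2] at h1
    have h3 : Module.finrank ℝ (E (N - n)) = N - n := by simp
    rw [h3]
    omega
  let e1 : E n ≃ₗ[ℝ] LinearMap.range A := LinearEquiv.ofInjective A hinj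
  let e2 : E (N - n) ≃ₗ[ℝ] C := LinearEquiv.ofFinrankEq _ _ hfC
  refine ⟨(e1.prodCongr e2).trans (Submodule.prodEquivOfIsCompl _ _ hC), fun x => ?_⟩
  rw [LinearEquiv.trans_apply, LinearEquiv.prodCongr_apply, Submodule.coe_prodEquivOfIsCompl']
  simp only [map_zero, Submodule.coe_zero, add_zero]
  rfl

end algebra

theorem t_VRX (h1 : S_VAP) (h2 : S_VRR) : S_VRX := by
  intro r q A δ hA hδ
  obtain ⟨κ, hκ, H⟩ := Pool.Agent.R754.KG.min_const (P := fun q' κ =>
      ∀ (B n N : ℕ) (k : Fin B → ℕ) (G : ∀ i, Set (E (k i) ≃ₗᵢ[ℝ] E (k i)))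
      (ψ : (E n × E q') ≃ₗ[ℝ] E N) (e0 : (∀ i, E (k i)) ≃ₗ[ℝ] E N)
      (V : Fin r → ∀ i, E (k i) → ℝ) (e : Fin r → ℝ), 1 ≤ n → 1 ≤ r → (∀ i, Gd A (G i)) →
      (∀ j i, ConvexOn ℝ univ (V j i)) → (∀ j i x, 0 ≤ V j i x) →
      (∃ R : ℝ, ∀ j i x, max (‖x‖ - R) 0 ^ 2 ≤ V j i x) →
      (∀ i, ∀ g ∈ G i, ∀ j x, V j i (g x) = V j i x) →
      (∀ i, ∀ g ∈ G i, ∀ y : E (k i), (ψ.symm (e0 (Pi.single i (g y - y)))).2 = 0) →
      (∃ x : E n, ∀ j, ∑ i, V j i (e0.symm (ψ (x, 0)) i) < e j) →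
      CcW κ δ (ind {x : E n | ∀ j, ∑ i, V j i (e0.symm (ψ (x, 0)) i) ≤ e j}))
    (fun j => h2 r j A δ hA hδ)
    (fun j κ κ' hκ' hP B n N k G ψ e0 V e a1 a2 a3 a4 a5 a6 a7 a8 a9 =>
      (hP B n N k G ψ e0 V e a1 a2 a3 a4 a5 a6 a7 a8 a9).mono hκ') q
  refine ⟨κ / 2, by linarith, fun B n k G L V e hN hG hV he hVG hL hb hint => ?_⟩
  obtain ⟨x0, hx0⟩ := hint
  have hx0' : x0 ∈ VX L V e := interior_subset hx0
  obtain ⟨U, f, hUc, hU0, hUg, hUG, hUb, hUs, hmon, hcap⟩ := h1 r B n k L V e hV he hb ⟨x0, hx0'⟩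
  have hinj := inj hb hx0'
  obtain ⟨K, hK⟩ : ∃ K : Set (E n), K = VX L V e := ⟨_, rfl⟩
  obtain ⟨Km, hKm⟩ : ∃ Km : ℕ → Set (E n), Km = fun m => VR L (U m) (f m) := ⟨_, rfl⟩
  have hcap' : K = ⋂ m, Km m := by
    rw [hK, hKm]
    exact hcap.symm
  have hb' := hb
  rw [← hK] at hb hx0 ⊢
  have hcl : ∀ m, IsClosed (Km m) := fun m => by
    rw [hKm]
    exact vr_closed _ _ (hUc m)
  have hcv : ∀ m, Convex ℝ (Km m) := fun m => by
    rw [hKm]
    exact vr_convex _ _ (hUc m)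
  have hbd : ∀ m, Bornology.IsBounded (Km m) := fun m => by
    rw [hKm]
    exact hUb m
  have hanti : Antitone Km := antitone_nat_of_succ_le fun m => by
    rw [hKm]
    exact hmon m
  have hKcl : IsClosed K := by
    rw [hcap']
    exact isClosed_iInter hcl
  have hKc : IsCompact K := Metric.isCompact_of_isClosed_isBounded hKcl hb
  have hKv : Convex ℝ K := by
    rw [hcap']
    exact convex_iInter hcv
  refine ⟨hKc, hKv, ?_⟩
  rcases Nat.eq_zero_or_pos n with rfl | hn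
  · exact Pool.Agent.R754.KG.cc_zero hδ.le K hKc ⟨x0, hx0⟩
  have hr : 1 ≤ r := by
    rcases Nat.eq_zero_or_pos r with hr | hr
    · exfalso
      subst hr
      have hun : VX L V e = univ := eq_univ_of_forall fun x j => j.elim0
      rw [hun] at hb'
      have : Nonempty (Fin n) := ⟨⟨0, hn⟩⟩
      exact NormedSpace.unbounded_univ ℝ (E n) hb'
    · exact hr
  obtain ⟨N, hNN⟩ : ∃ N : ℕ, N = ∑ i, k i := ⟨_, rfl⟩
  have hfin : Module.finrank ℝ (∀ i, E (k i)) = Module.finrank ℝ (E N) := by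
    rw [Module.finrank_pi_fintype, hNN]
    simp
  let e0 : (∀ i, E (k i)) ≃ₗ[ℝ] E N := LinearEquiv.ofFinrankEq _ _ hfin
  obtain ⟨hnN, ψ, hψ⟩ := extend (A := e0.toLinearMap ∘ₗ L) (e0.injective.comp hinj)
  have hψ' : ∀ x : E n, ψ (x, 0) = e0 (L x) := fun x => hψ x
  have hev : ∀ x : E n, e0.symm (ψ (x, 0)) = L x := fun x => by
    rw [hψ', LinearEquiv.symm_apply_apply]
  have hcc : ∀ m, CcW κ δ (ind (Km m)) := fun m => by
    have h3 := H (N - n) (by omega) B n N k G ψ e0 (U m) (f m) hn hr hG (hUc m) (hU0 m) (hUg m)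
      (fun i g hg => hUG m i g (hVG i g hg))
      (fun i g hg y => by
        obtain ⟨x, hx⟩ := hL i g hg y
        rw [← hx, ← hψ', LinearEquiv.symm_apply_apply])
      (by
        obtain ⟨x, hx⟩ := hUs m
        refine ⟨x, fun j => ?_⟩
        simp only [hev]
        exact hx j)
    have e : Km m = {x : E n | ∀ j, ∑ i, U m j i (e0.symm (ψ (x, 0)) i) ≤ f m j} := by
      rw [hKm]
      ext x
      simp only [hev]
      rfl
    rw [e]
    exact h3
  exact lim_cc hκ hcap' hcl hbd hanti hx0 hcc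

end Pool.Agent.N712.KM
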